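import Mathlib
import Pool.Agent.Lib.MP_8b6d0b_co.Cases
import Pool.Agent.Lib.MP_8b6d0b_co.J1Count
import Pool.Agent.Lib.MP_8b6d0b_co.J2Example

/-!
# The second largest non-hitting index of `(q+1)`-sets of `PG(2,q)`, `q` odd

`U(3) = 2` and `U(q) = (q^2 - 2 q + 3) / 2` for every odd prime power `q ≥ 5`.
-/

namespace Pool.Agent.Results.MP_8b6d0b_co.SecondLargest

open Projectivization
open scoped LinearAlgebra.Projectivization

/-- The non-hitting index of a set `S` of points of `PG(2,F)`: the number of lines of `PG(2,F)` that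
contain no point of `S`.  Points and lines are both one-dimensional subspaces of `F^3`; the point
`p` is on the line `l` iff the dot product of their representatives is zero (`p.orthogonal l`). -/
noncomputable def nonHittingIndex {F : Type*} [Field F] (S : Set (ℙ F (Fin 3 → F))) : ℕ :=
  {l : ℙ F (Fin 3 → F) | ∀ p ∈ S, ¬ p.orthogonal l}.ncard

theorem nonHittingIndex_coe {F : Type*} [Field F] [Finite F]
    (S : Finset (ℙ F (Fin 3 → F))) :
    nonHittingIndex (S : Set (ℙ F (Fin 3 → F))) = NonHit.u0 S := by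
  unfold nonHittingIndex NonHit.u0
  rw [← Set.ncard_coe_finset]
  congr 1
  ext l
  simp

theorem choose_two_mul (n : ℕ) : 2 * (n - 1).choose 2 = (n - 1) * (n - 2) := by
  rw [Nat.choose_two_right]
  have h : n - 1 - 1 = n - 2 := by omega
  rw [h]
  exact Nat.mul_div_cancel' (NonHit.even_term n).two_dvd

theorem arith (q : ℕ) (hodd : Odd q) (h3 : 3 ≤ q) :
    (q ^ 2 - 2 * q + 3) / 2 + (q - 3) / 2 = q * (q - 1) / 2 := by
  obtain ⟨k, rfl⟩ := hodd
  have h1 : (2 * k + 1) ^ 2 - 2 * (2 * k + 1) + 3 = 2 * (2 * k ^ 2 + 1) := by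
    have : (2 * k + 1) ^ 2 = 2 * (2 * k + 1) + (4 * k ^ 2 - 1) := by
      have h2 : 1 ≤ 4 * k ^ 2 := by nlinarith
      zify [h2]; ring
    rw [this]
    have h2 : 1 ≤ 4 * k ^ 2 := by nlinarith
    omega
  have h2 : (2 * k + 1) * (2 * k + 1 - 1) = 2 * ((2 * k + 1) * k) := by
    rw [Nat.add_sub_cancel]; ring
  rw [h1, h2, Nat.mul_div_cancel_left _ (by norm_num), Nat.mul_div_cancel_left _ (by norm_num)]
  have h4 : (2 * k + 1 - 3) / 2 = k - 1 := by omega
  rw [h4]
  have h5 : 1 ≤ k := by omega
  zify [h5]; ring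

/-- For every finite field `F` of odd order `q`, the largest value smaller than `q (q-1) / 2` of the
non-hitting index on the `(q+1)`-sets of points of `PG(2,F)` is `2` if `q = 3` and
`(q^2 - 2 q + 3) / 2` otherwise. -/
theorem result (F : Type*) [Field F] [Finite F] (hodd : Odd (Nat.card F)) :
    IsGreatest {u : ℕ | ∃ S : Set (ℙ F (Fin 3 → F)), S.ncard = Nat.card F + 1 ∧
        nonHittingIndex S = u ∧ u < Nat.card F * (Nat.card F - 1) / 2}
      (if Nat.card F = 3 then 2 else (Nat.card F ^ 2 - 2 * Nat.card F + 3) / 2) := by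
  classical
  have := Fintype.ofFinite F
  rw [Nat.card_eq_fintype_card] at hodd ⊢
  have hq3 : 3 ≤ Fintype.card F := by
    have h1 : 1 < Fintype.card F := Fintype.one_lt_card
    obtain ⟨k, hk⟩ := hodd
    omega
  have har := arith _ hodd hq3
  constructor
  · by_cases h3 : Fintype.card F = 3
    · rw [if_pos h3]
      obtain ⟨S, hS, hW⟩ := NonHit.example_set_three h3
      refine ⟨(S : Set _), ?_, ?_, ?_⟩
      · rw [Set.ncard_coe_finset, hS, h3]
      · have h4 := NonHit.count_identity S (by rw [hS, h3])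
        rw [nonHittingIndex_coe]
        rw [h3, hW] at h4
        omega
      · rw [h3]; norm_num
    · rw [if_neg h3]
      have h5 : 5 ≤ Fintype.card F := by
        obtain ⟨k, hk⟩ := hodd
        omega
      obtain ⟨S, hS, hW⟩ := NonHit.example_set hodd h5
      refine ⟨(S : Set _), ?_, ?_, ?_⟩
      · rw [Set.ncard_coe_finset, hS]
      · have h4 := NonHit.count_identity S hS
        rw [nonHittingIndex_coe]
        rw [hW] at h4
        omega
      · have : 1 ≤ (Fintype.card F - 3) / 2 := by omega
        omega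
  · rintro u ⟨S, hS, hu, hlt⟩
    have hSf : S.Finite := Set.toFinite S
    obtain ⟨K, rfl⟩ : ∃ K : Finset (ℙ F (Fin 3 → F)), (K : Set _) = S := ⟨hSf.toFinset, hSf.coe_toFinset⟩
    rw [Set.ncard_coe_finset] at hS
    rw [nonHittingIndex_coe] at hu
    have h4 := NonHit.count_identity K hS
    have hT : ∃ l : NonHit.PG F, 3 ≤ NonHit.secN K l := by
      by_contra hcon
      push Not at hcon
      have h5 : ∑ l : NonHit.PG F, (NonHit.secN K l - 1).choose 2 = 0 := by
        refine Finset.sum_eq_zero fun l _ => ?_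
        rw [Nat.choose_eq_zero_iff]
        have := hcon l
        omega
      omega
    have h5 := NonHit.main_bound K hodd hS hT
    have h6 : ∑ l : NonHit.PG F, (NonHit.secN K l - 1) * (NonHit.secN K l - 2)
        = 2 * ∑ l : NonHit.PG F, (NonHit.secN K l - 1).choose 2 := by
      rw [Finset.mul_sum]
      exact Finset.sum_congr rfl fun l _ => (choose_two_mul _).symm
    split_ifs with h3
    · rw [h3] at hlt
      omega
    · omega

end Pool.Agent.Results.MP_8b6d0b_co.SecondLargest
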